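import Pool.Agent.Lib.MP_82a8ee_lc.Sparse.Sim2

set_option autoImplicit false

namespace MP82a8ee.Sparse

open MP82a8ee MP82a8ee.Few

section

variable {K : Rect} {m n k : ℕ} {O B : Set (ℤ × ℤ)}

theorem core_finite (K : Rect) : K.core.Finite := by
  apply Set.Finite.subset ((Set.finite_Ico K.r0 K.r1).prod (Set.finite_Ico K.c0 K.c1))
  rintro c ⟨h1, h2, h3, h4⟩
  exact ⟨⟨h1, h2⟩, ⟨h3, h4⟩⟩

/-- the start -/
theorem start (hk : (B ∩ K.core).ncard ≤ k) (hO : ∀ c ∈ O, c ∉ K.win m n (2 * k + 1))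
    {p p' : ℤ × ℤ} (hp : p ∈ board m n) (hpp : Rob2 K m n k ∅ p p') :
    Rel2 K m n k O ⟨B, p⟩ ⟨(B ∩ K.core) ∪ O, p'⟩ := by
  have hfin : (B ∩ K.core).Finite := (core_finite K).subset Set.inter_subset_right
  refine ⟨hfin.toFinset, ∅, fun _ => 0, ⟨?_, ?_, ?_, ?_, ?_, ?_, hO⟩, ?_, hp, hpp⟩
  · rw [← Set.ncard_eq_toFinset_card _ hfin]; simpa using hk
  · intro c hc
    exact ((Set.Finite.mem_toFinset _).1 hc).2
  · intro c hc
    exact ((Set.Finite.mem_toFinset _).1 hc).1
  · intro c hc; exact absurd hc (Set.notMem_empty c)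
  · intro c hc; exact absurd hc (Set.notMem_empty c)
  · intro c hc; exact absurd hc (Set.notMem_empty c)
  · simp

/-- robot and target in the rectangle -/
theorem inner (hK : K.OK m n k) {S T : Set (ℤ × ℤ)} (hS : S ⊆ board m n)
    (hT : K.win m n (2 * k + 1) ⊆ T) (hk : (B ∩ K.core).ncard ≤ k)
    (hO : ∀ c ∈ O, c ∉ K.win m n (2 * k + 1)) {p q : ℤ × ℤ} (hp : p ∈ K.core) (hq : q ∈ K.core)
    (h : SolvableIn S B p q) : SolvableIn T ((B ∩ K.core) ∪ O) p q := by
  obtain ⟨B', h⟩ := h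
  obtain ⟨t', h1, A, P, l, h3, h4, h5, h6⟩ := sim2_all hK hS hT
    (start hk hO (core_win hK hp).1 (Or.inl ⟨hp, rfl⟩)) h
  rcases h6 with ⟨_, h6⟩ | ⟨h6, _⟩
  · obtain ⟨C, q'⟩ := t'
    simp only at h6
    subst h6
    exact ⟨C, h1⟩
  · exact absurd hq h6

/-- robot outside, target in the rectangle -/
theorem enter (hK : K.OK m n k) {S T : Set (ℤ × ℤ)} (hS : S ⊆ board m n)
    (hT : K.win m n (2 * k + 1) ⊆ T) (hk : (B ∩ K.core).ncard ≤ k)
    (hO : ∀ c ∈ O, c ∉ K.win m n (2 * k + 1)) {p q w : ℤ × ℤ} (hp : p ∈ board m n)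
    (hp' : p ∉ K.core) (hw : w ∈ K.win m n (2 * k + 1)) (hw' : w ∉ K.core) (hq : q ∈ K.core)
    (h : SolvableIn S B p q) : SolvableIn T ((B ∩ K.core) ∪ O) w q := by
  obtain ⟨B', h⟩ := h
  obtain ⟨t', h1, A, P, l, h3, h4, h5, h6⟩ := sim2_all hK hS hT
    (start hk hO hp (Or.inr ⟨hp', hw, hw', Set.notMem_empty _⟩)) h
  rcases h6 with ⟨_, h6⟩ | ⟨h6, _⟩
  · obtain ⟨C, q'⟩ := t'
    simp only at h6
    subst h6
    exact ⟨C, h1⟩
  · exact absurd hq h6

/-- robot in the rectangle, target outside -/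
theorem leave (hK : K.OK m n k) {S T : Set (ℤ × ℤ)} (hS : S ⊆ board m n)
    (hT : K.win m n (2 * k + 1) ⊆ T) (hk : (B ∩ K.core).ncard ≤ k)
    (hO : ∀ c ∈ O, c ∉ K.win m n (2 * k + 1)) {p q : ℤ × ℤ} (hp : p ∈ K.core)
    (hq : q ∉ K.core) (h : SolvableIn S B p q) :
    ∃ (A : Finset (ℤ × ℤ)) (P : Set (ℤ × ℤ)), (∀ c ∈ A, c ∈ K.core) ∧
      (∀ c ∈ P, c ∈ K.win m n (2 * k + 1)) ∧ Par K k P ∧
      ∀ v, Fr K m n k P v → Rch T ⟨(B ∩ K.core) ∪ O, p⟩ ⟨(A : Set (ℤ × ℤ)) ∪ P ∪ O, v⟩ := by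
  obtain ⟨B', h⟩ := h
  obtain ⟨t', h1, A, P, l, h3, h4, h5, h6⟩ := sim2_all hK hS hT
    (start hk hO (core_win hK hp).1 (Or.inl ⟨hp, rfl⟩)) h
  obtain ⟨C, q'⟩ := t'
  simp only at h4
  subst h4
  rcases h6 with ⟨h6, _⟩ | ⟨_, h6⟩
  · exact absurd h6 hq
  refine ⟨A, P, h3.core, ?_, h3.par, ?_⟩
  · intro c hc
    refine win_iff.2 ⟨h3.brd c hc, fun e => ?_⟩
    obtain ⟨d, j, g1, g2, g3, g4⟩ := h3.par.arm c hc
    by_cases he : e = d
    · subst he; omega
    · have := g4 e he; omega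
  · intro v hv
    refine Relation.ReflTransGen.trans h1 ((ring hK h3.par h6 hv).rch ?_)
    intro c hc
    refine ⟨hT hc.1, ?_⟩
    rintro ((g1 | g1) | g1)
    · exact hc.2.1 (h3.core c g1)
    · exact hc.2.2 g1
    · exact hO c g1 hc.1

theorem win_board : K.win m n (2 * k + 1) ⊆ board m n := fun _ h => h.1

/-- what is outside of the moat does not matter -/
theorem local_iff (hK : K.OK m n k) (hk : (B ∩ K.core).ncard ≤ k)
    (he : ∀ c ∈ B, c ∈ K.win m n (2 * k + 1) → c ∈ K.core) {p q : ℤ × ℤ} (hp : p ∈ K.core)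
    (hq : q ∈ K.core) :
    Solvable m n B p q ↔ SolvableIn (K.win m n (2 * k + 1)) (B ∩ K.core) p q := by
  rw [← solvableIn_board]
  constructor
  · intro h
    have := inner (O := ∅) hK (S := board m n) (T := K.win m n (2 * k + 1)) le_rfl le_rfl hk
      (fun c hc => absurd hc (Set.notMem_empty c)) hp hq h
    rwa [Set.union_empty] at this
  · intro h
    have := inner (O := B \ K.core) (B := B ∩ K.core) hK (S := K.win m n (2 * k + 1))
      (T := board m n) win_board win_board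
      (by rw [Set.inter_assoc, Set.inter_self]; exact hk)
      (fun c hc hw => hc.2 (he c hc.1 hw)) hp hq h
    rwa [Set.inter_assoc, Set.inter_self, Set.inter_union_sdiff] at this

/-- the outermost layer of the window is free -/
theorem outer_fr {P : Set (ℤ × ℤ)} (hP : Par K k P) {c : ℤ × ℤ}
    (h : c ∈ K.win m n (2 * k + 1)) (h' : c ∉ K.win m n (2 * k)) : Fr K m n k P c := by
  obtain ⟨e, he⟩ : ∃ e, 2 * (k : ℤ) < lev K e c := by
    by_contra hh
    push Not at hh
    exact h' (win_iff.2 ⟨h.1, hh⟩)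
  have h2 := (win_iff.1 h).2 e
  refine ⟨h, ?_, ?_⟩
  · intro hc
    have := core_iff.1 hc e
    omega
  · intro hc
    obtain ⟨j, _, _, h4⟩ := hP.even hc (d := e) (by omega)
    omega

theorem outermost {P : Set (ℤ × ℤ)} (hP : Par K k P) {c c' : ℤ × ℤ} {d : Dir}
    (h : c ∈ K.win m n (2 * k + 1)) (h' : c' ∉ K.win m n (2 * k + 1)) (hb : c' ∈ board m n)
    (hd : c' = c + d.vec) : Fr K m n k P c := by
  refine outer_fr hP h fun hh => h' (win_iff.2 ⟨hb, fun e => ?_⟩)
  have h1 := (win_iff.1 hh).2 e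
  rw [hd, ← sh_one]
  by_cases he : e = d
  · subst he
    rw [lev_sh]; omega
  · have := lev_sh_ne K c d e 1 he (by norm_num)
    omega

end

theorem board_conn {m n : ℕ} {u c : ℤ × ℤ} (hu : u ∈ board m n) (hc : c ∈ board m n) :
    St (fun c => c ∈ board m n) u c := by
  obtain ⟨i, y⟩ := u
  obtain ⟨j, z⟩ := c
  obtain ⟨a1, a2, a3, a4⟩ := hu
  obtain ⟨b1, b2, b3, b4⟩ := hc
  simp only at a1 a2 a3 a4 b1 b2 b3 b4
  exact band (Fr := fun c => c ∈ board m n) (ra := 0) (rb := m) (ca := 0) (cb := n) (z := z) b3 b4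
    (fun x h1 h2 => ⟨h1, h2, b3, b4⟩)
    (fun y y' h1 h2 h3 h4 _ => Or.inl fun x h5 h6 => ⟨h5, h6, h1, h2⟩)
    (fun y h1 h2 => ⟨i, a1, a2, a1, a2, h1, h2⟩) b1 b2 _ i y a3 a4 a1 a2 rfl

/-- walking from a free cell of one moat to each free cell of each moat -/
theorem sea {ι : Type*} {m n : ℕ} {K : ι → Rect} {k : ι → ℕ} {C : Set (ℤ × ℤ)}
    {P : ι → Set (ℤ × ℤ)} (hK : ∀ e, (K e).OK m n (k e)) (hP : ∀ e, Par (K e) (k e) (P e))
    (hd : ∀ e f, e ≠ f → ∀ c, c ∈ (K e).win m n (2 * k e + 1) →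
      c ∉ (K f).win m n (2 * k f + 1))
    (hC : ∀ e c, Fr (K e) m n (k e) (P e) c → c ∉ C)
    (hC2 : ∀ c ∈ C, ∃ e, c ∈ (K e).win m n (2 * k e + 1))
    {u : ℤ × ℤ} (hub : u ∈ board m n)
    (hu : ∀ e, u ∈ (K e).win m n (2 * k e + 1) → Fr (K e) m n (k e) (P e) u) {c : ℤ × ℤ}
    (hc : St (fun c => c ∈ board m n) u c) :
    c ∈ board m n ∧
    (∀ e, c ∈ (K e).win m n (2 * k e + 1) → ∀ r, Fr (K e) m n (k e) (P e) r →
      St (fun c => c ∈ board m n ∧ c ∉ C) u r) ∧
    ((∀ e, c ∉ (K e).win m n (2 * k e + 1)) → St (fun c => c ∈ board m n ∧ c ∉ C) u c) := by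
  have hmono : ∀ (e : ι) (a b : ℤ × ℤ), St (Fr (K e) m n (k e) (P e)) a b →
      St (fun c => c ∈ board m n ∧ c ∉ C) a b :=
    fun e a b h => h.mono fun c hc => ⟨hc.1.1, hC e c hc⟩
  induction hc with
  | refl =>
    refine ⟨hub, fun e he r hr => ?_, fun h => Relation.ReflTransGen.refl⟩
    exact hmono _ _ _ (ring (hK _) (hP _) (hu e he) hr)
  | @tail b c _ h1 ih =>
    obtain ⟨⟨d, hdir⟩, hcb⟩ := h1
    obtain ⟨hbb, ih1, ih2⟩ := ih
    refine ⟨hcb, ?_⟩
    by_cases hsame : ∃ e, b ∈ (K e).win m n (2 * k e + 1) ∧ c ∈ (K e).win m n (2 * k e + 1)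
    · obtain ⟨e, hbe, hce⟩ := hsame
      refine ⟨fun f hf r hr => ?_, fun h => absurd hce (h e)⟩
      have hfe : f = e := by
        by_contra hne
        exact hd f e hne c hf hce
      subst hfe
      exact ih1 _ hbe r hr
    · have hub : St (fun c => c ∈ board m n ∧ c ∉ C) u b := by
        by_cases hb : ∃ e, b ∈ (K e).win m n (2 * k e + 1)
        · obtain ⟨e, he⟩ := hb
          have hce : c ∉ (K e).win m n (2 * k e + 1) := fun h => hsame ⟨e, he, h⟩
          exact ih1 e he b (outermost (hP e) he hce hcb hdir)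
        · exact ih2 fun e he => hb ⟨e, he⟩
      have hcfr : ∀ e, c ∈ (K e).win m n (2 * k e + 1) → Fr (K e) m n (k e) (P e) c := by
        intro e he
        have hbe : b ∉ (K e).win m n (2 * k e + 1) := fun h => hsame ⟨e, h, he⟩
        exact outermost (d := opp d) (hP e) he hbe hbb (by rw [hdir, vec_opp])
      have hcF : c ∉ C := by
        intro h
        obtain ⟨e, he⟩ := hC2 c h
        exact hC e c (hcfr e he) h
      have huc : St (fun c => c ∈ board m n ∧ c ∉ C) u c :=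
        Relation.ReflTransGen.tail hub ⟨⟨d, hdir⟩, hcb, hcF⟩
      refine ⟨fun e he r hr => ?_, fun _ => huc⟩
      exact Relation.ReflTransGen.trans huc (hmono e _ _ (ring (hK e) (hP e) (hcfr e he) hr))

/-- The blocks `B` lie in rectangles `K e` with at most `k e` blocks each; the rectangles with
their moats of width `2 k e + 1` are pairwise disjoint. -/
structure Scattered {ι : Type*} (m n : ℕ) (B : Set (ℤ × ℤ)) (K : ι → Rect) (k : ι → ℕ) :
    Prop where
  ok : ∀ e, (K e).OK m n (k e)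
  few : ∀ e, (B ∩ (K e).core).ncard ≤ k e
  dis : ∀ e f, e ≠ f →
    Disjoint ((K e).win m n (2 * k e + 1)) ((K f).win m n (2 * k f + 1))
  cov : B ⊆ ⋃ e, (K e).core

theorem Scattered.dis' {ι : Type*} {m n : ℕ} {B : Set (ℤ × ℤ)} {K : ι → Rect} {k : ι → ℕ}
    (h : Scattered m n B K k) : ∀ e f, e ≠ f → ∀ c, c ∈ (K e).win m n (2 * k e + 1) →
      c ∉ (K f).win m n (2 * k f + 1) :=
  fun e f hef _ hc hc' => Set.disjoint_left.1 (h.dis e f hef) hc hc'

theorem Scattered.moat {ι : Type*} {m n : ℕ} {B : Set (ℤ × ℤ)} {K : ι → Rect} {k : ι → ℕ}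
    (h : Scattered m n B K k) (e : ι) : ∀ c ∈ B, c ∈ (K e).win m n (2 * k e + 1) →
      c ∈ (K e).core := by
  intro c hc hw
  obtain ⟨f, hf⟩ := Set.mem_iUnion.1 (h.cov hc)
  by_cases hef : e = f
  · subst hef; exact hf
  · exact absurd (core_win (h.ok f) hf) (h.dis' e f hef c hw)

theorem Scattered.sub {ι : Type*} {m n : ℕ} {B : Set (ℤ × ℤ)} {K : ι → Rect} {k : ι → ℕ}
    (h : Scattered m n B K k) : ∀ c ∈ B, ∃ e, c ∈ (K e).win m n (2 * k e + 1) := by
  intro c hc
  obtain ⟨e, he⟩ := Set.mem_iUnion.1 (h.cov hc)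
  exact ⟨e, core_win (h.ok e) he⟩

/-- the robot reaches a parked block -/
theorem reach_parked {K : Rect} {m n k : ℕ} {P O : Set (ℤ × ℤ)} {A : Finset (ℤ × ℤ)}
    (hK : K.OK m n k) (hP : Par K k P) (hA : ∀ c ∈ A, c ∈ K.core)
    (hO : ∀ c ∈ O, c ∉ K.win m n (2 * k + 1)) {q : ℤ × ℤ} (hq : q ∈ P)
    (hqw : q ∈ K.win m n (2 * k + 1)) :
    ∃ u B', Fr K m n k P u ∧
      Rch (board m n) ⟨(A : Set (ℤ × ℤ)) ∪ P ∪ O, u⟩ ⟨B', q⟩ := by
  obtain ⟨d, j, h1, h2, h3, h4⟩ := hP.arm q hq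
  have hdiv : ∀ i : ℤ, -1 ≤ i → i ≤ 1 → i ≠ 0 → Fr K m n k P (sh q d i) := by
    intro i hi hi' hi0
    have hl : lev K d (sh q d i) = 2 * j + i := by rw [lev_sh, h3]
    have hb : sh q d i ∈ board m n := by
      obtain ⟨a1, a2, a3⟩ := hK.row
      obtain ⟨b1, b2, b3⟩ := hK.col
      have c1 := hK.up
      have c2 := hK.down
      have c3 := hK.left
      have c4 := hK.right
      obtain ⟨g1, g2, g3, g4⟩ := hqw.1
      cases d <;> simp only [lev] at h3 <;>
        exact ⟨by simp only [sh, Dir.vec]; omega, by simp only [sh, Dir.vec]; omega,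
          by simp only [sh, Dir.vec]; omega, by simp only [sh, Dir.vec]; omega⟩
    refine ⟨win_iff.2 ⟨hb, fun e => ?_⟩, ?_, ?_⟩
    · by_cases he : e = d
      · subst he; omega
      · have g1 := h4 e he
        have g2 : lev K e (sh q d i) ≤ lev K e q + 1 := by
          cases d <;> cases e <;> simp only [lev, sh, Dir.vec] <;> omega
        omega
    · intro hc
      have := core_iff.1 hc d
      omega
    · intro hc
      obtain ⟨j', _, _, g1⟩ := hP.even hc (d := d) (by omega)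
      omega
  have f1 := hdiv (-1) (by omega) (by omega) (by omega)
  have f2 := hdiv 1 (by omega) (by omega) (by omega)
  have e1 : sh q d (-1) + d.vec = q := by
    rw [← sh_one, sh_sh]; norm_num [sh_zero]
  have e2 : sh q d (-1) + d.vec + d.vec = sh q d 1 := by
    rw [e1, sh_one]
  refine ⟨sh q d (-1), insert (sh q d (-1) + d.vec + d.vec)
    (((A : Set (ℤ × ℤ)) ∪ P ∪ O) \ {sh q d (-1) + d.vec}), f1, ?_⟩
  have hmv : MoveIn (board m n) d ⟨(A : Set (ℤ × ℤ)) ∪ P ∪ O, sh q d (-1)⟩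
      ⟨insert (sh q d (-1) + d.vec + d.vec)
        (((A : Set (ℤ × ℤ)) ∪ P ∪ O) \ {sh q d (-1) + d.vec}), sh q d (-1) + d.vec⟩ := by
    refine MoveIn.push _ _ ?_ ?_ ?_ ?_
    · rw [e1]; exact hqw.1
    · rw [e1]; exact Or.inl (Or.inr hq)
    · rw [e2]; exact f2.1.1
    · rw [e2]
      rintro ((g1 | g1) | g1)
      · exact f2.2.1 (hA _ g1)
      · exact f2.2.2 g1
      · exact hO _ g1 f2.1
  rw [show (⟨insert (sh q d (-1) + d.vec + d.vec)
    (((A : Set (ℤ × ℤ)) ∪ P ∪ O) \ {sh q d (-1) + d.vec}), sh q d (-1) + d.vec⟩ : Position) =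
    ⟨insert (sh q d (-1) + d.vec + d.vec)
    (((A : Set (ℤ × ℤ)) ∪ P ∪ O) \ {sh q d (-1) + d.vec}), q⟩ from by rw [Position.mk.injEq]; exact ⟨rfl, e1⟩] at hmv
  exact Rch.one hmv

/-- robot and target not in the same rectangle -/
theorem glob_iff {ι : Type*} {m n : ℕ} {B : Set (ℤ × ℤ)} {K : ι → Rect} {k : ι → ℕ}
    (h : Scattered m n B K k) {v w : ι → ℤ × ℤ}
    (hv : ∀ e, v e ∈ (K e).win m n (2 * k e + 1) \ (K e).win m n (2 * k e))
    (hw : ∀ e, w e ∈ (K e).win m n (2 * k e + 1) \ (K e).core) {p q : ℤ × ℤ}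
    (hp : p ∈ board m n) (hq : q ∈ board m n) (hpq : ∀ e, p ∈ (K e).core → q ∉ (K e).core) :
    Solvable m n B p q ↔
      (∀ e, p ∈ (K e).core →
        SolvableIn ((K e).win m n (2 * k e + 1)) (B ∩ (K e).core) p (v e)) ∧
      (∀ e, q ∈ (K e).core →
        SolvableIn ((K e).win m n (2 * k e + 1)) (B ∩ (K e).core) (w e) q) := by
  classical
  rw [← solvableIn_board]
  constructor
  · intro hs
    constructor
    · intro i hpi
      obtain ⟨A, P, g1, g2, g3, g4⟩ := leave (O := ∅) (h.ok i) (S := board m n)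
        (T := (K i).win m n (2 * k i + 1)) le_rfl le_rfl (h.few i)
        (fun c hc => absurd hc (Set.notMem_empty c)) hpi (hpq i hpi) hs
      have := g4 (v i) (outer_fr g3 (hv i).1 (hv i).2)
      rw [Set.union_empty] at this
      exact ⟨_, this⟩
    · intro j hqj
      have := enter (O := ∅) (h.ok j) (S := board m n) (T := (K j).win m n (2 * k j + 1)) le_rfl
        le_rfl (h.few j) (fun c hc => absurd hc (Set.notMem_empty c))
        hp (fun hh => hpq j hh hqj) (hw j).1 (hw j).2 hqj hs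
      rwa [Set.union_empty] at this
  · rintro ⟨hs1, hs2⟩
    -- the first part of the route
    obtain ⟨C, P, u, r1, hP, hub, hu, hC, hC2, hCB, hPu⟩ : ∃ (C : Set (ℤ × ℤ))
        (P : ι → Set (ℤ × ℤ)) (u : ℤ × ℤ), Rch (board m n) ⟨B, p⟩ ⟨C, u⟩ ∧
        (∀ e, Par (K e) (k e) (P e)) ∧ u ∈ board m n ∧
        (∀ e, u ∈ (K e).win m n (2 * k e + 1) → Fr (K e) m n (k e) (P e) u) ∧
        (∀ e c, Fr (K e) m n (k e) (P e) c → c ∉ C) ∧
        (∀ c ∈ C, ∃ e, c ∈ (K e).win m n (2 * k e + 1)) ∧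
        (∀ e, p ∉ (K e).core → P e = ∅ ∧ ∀ c, c ∈ (K e).win m n (2 * k e + 1) →
          (c ∈ C ↔ c ∈ B ∩ (K e).core)) ∧
        (∀ e, p ∈ (K e).core → ∀ c ∈ P e, c ∈ (K e).win m n (2 * k e + 1) →
          ∃ u' B', Fr (K e) m n (k e) (P e) u' ∧ Rch (board m n) ⟨C, u'⟩ ⟨B', c⟩) := by
      by_cases hpc : ∃ i, p ∈ (K i).core
      · obtain ⟨i, hpi⟩ := hpc
        have huni : ∀ e, p ∈ (K e).core → e = i := by
          intro e he
          by_contra hne
          exact h.dis' e i hne p (core_win (h.ok e) he) (core_win (h.ok i) hpi)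
        have hvi : v i ∉ (K i).core := fun hh => (hv i).2 (by
          rw [core_iff] at hh
          exact win_iff.2 ⟨(hv i).1.1, fun e => (hh e).trans (by positivity)⟩)
        obtain ⟨A, P, g1, g2, g3, g4⟩ := leave (O := B \ (K i).core) (B := B ∩ (K i).core)
          (h.ok i) (S := (K i).win m n (2 * k i + 1)) (T := board m n) win_board win_board
          (by rw [Set.inter_assoc, Set.inter_self]; exact h.few i)
          (fun c hc hw => hc.2 (h.moat i c hc.1 hw)) hpi hvi (hs1 i hpi)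
        rw [Set.inter_assoc, Set.inter_self, Set.inter_union_sdiff] at g4
        have hfv := outer_fr g3 (hv i).1 (hv i).2
        have hCe : ∀ e, e ≠ i → ∀ c, c ∈ (K e).win m n (2 * k e + 1) →
            (c ∈ (A : Set (ℤ × ℤ)) ∪ P ∪ B \ (K i).core ↔ c ∈ B ∩ (K e).core) := by
          intro e he c hcw
          constructor
          · rintro ((hc | hc) | hc)
            · exact absurd (core_win (h.ok i) (g1 c hc)) (h.dis' e i he c hcw)
            · exact absurd (g2 c hc) (h.dis' e i he c hcw)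
            · exact ⟨hc.1, h.moat e c hc.1 hcw⟩
          · rintro ⟨hc1, hc2⟩
            exact Or.inr ⟨hc1, fun hh => h.dis' e i he c hcw (core_win (h.ok i) hh)⟩
        obtain ⟨PP, hP1, hP2⟩ : ∃ PP : ι → Set (ℤ × ℤ), PP i = P ∧ ∀ e, e ≠ i → PP e = ∅ :=
          ⟨fun e => if e = i then P else ∅, if_pos rfl, fun e he => if_neg he⟩
        refine ⟨_, PP, v i, g4 (v i) hfv, ?_, (hv i).1.1, ?_, ?_, ?_, ?_, ?_⟩
        · intro e
          by_cases he : e = i
          · subst he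
            rw [hP1]; exact g3
          · rw [hP2 e he]
            exact ⟨fun c hc => absurd hc (Set.notMem_empty c),
              fun c hc => absurd hc (Set.notMem_empty c)⟩
        · intro e hce
          by_cases he : e = i
          · subst he
            rw [hP1]; exact hfv
          · exact absurd (hv i).1 (h.dis' e i he _ hce)
        · intro e c hc hcC
          by_cases he : e = i
          · subst he
            rw [hP1] at hc
            rcases hcC with (h1 | h1) | h1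
            · exact hc.2.1 (g1 c h1)
            · exact hc.2.2 h1
            · exact h1.2 (h.moat _ c h1.1 hc.1)
          · exact hc.2.1 ((hCe e he c hc.1).1 hcC).2
        · rintro c ((hc | hc) | hc)
          · exact ⟨i, core_win (h.ok i) (g1 c hc)⟩
          · exact ⟨i, g2 c hc⟩
          · exact h.sub c hc.1
        · intro e he
          have hei : e ≠ i := fun hh => he (hh ▸ hpi)
          exact ⟨hP2 e hei, hCe e hei⟩
        · intro e he c hc hcw
          have hei := huni e he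
          subst hei
          rw [hP1] at hc ⊢
          exact reach_parked (h.ok e) g3 g1 (fun c hc hw => hc.2 (h.moat e c hc.1 hw)) hc hcw
      · have hpc' : ∀ e, p ∉ (K e).core := fun e he => hpc ⟨e, he⟩
        refine ⟨B, fun _ => ∅, p, Relation.ReflTransGen.refl, ?_, hp, ?_, ?_, ?_, ?_, ?_⟩
        · intro e
          exact ⟨fun c hc => absurd hc (Set.notMem_empty c),
            fun c hc => absurd hc (Set.notMem_empty c)⟩
        · intro e he
          exact ⟨he, hpc' e, Set.notMem_empty p⟩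
        · intro e c hc hcB
          exact hc.2.1 (h.moat e c hcB hc.1)
        · exact h.sub
        · intro e _
          exact ⟨rfl, fun c hcw => ⟨fun hc => ⟨hc, h.moat e c hc hcw⟩, fun hc => hc.1⟩⟩
        · intro e he
          exact absurd he (hpc' e)
    have hwalk : ∀ (e : ι) (r : ℤ × ℤ), Fr (K e) m n (k e) (P e) r →
        Rch (board m n) ⟨C, u⟩ ⟨C, r⟩ := by
      intro e r hr
      have hsea := sea h.ok hP h.dis' hC hC2 hub hu (board_conn hub hr.1.1)
      exact (hsea.2.1 e hr.1 r hr).rch fun c hc => hc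
    by_cases hqc : ∃ j, q ∈ (K j).core
    · -- the target is in a rectangle
      obtain ⟨j, hqj⟩ := hqc
      obtain ⟨hPj, hCj⟩ := hCB j fun hh => hpq j hh hqj
      have r2 := hwalk j (w j) ⟨(hw j).1, (hw j).2, by rw [hPj]; exact Set.notMem_empty _⟩
      obtain ⟨B2, r3⟩ := enter (O := C \ (K j).core) (B := B ∩ (K j).core) (h.ok j)
        (S := (K j).win m n (2 * k j + 1)) (T := board m n) win_board win_board
        (by rw [Set.inter_assoc, Set.inter_self]; exact h.few j)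
        (fun c hc hcw => hc.2 ((hCj c hcw).1 hc.1).2) (hw j).1.1 (hw j).2 (hw j).1 (hw j).2 hqj
        (hs2 j hqj)
      have hCC : B ∩ (K j).core ∩ (K j).core ∪ C \ (K j).core = C := by
        ext c
        constructor
        · rintro (⟨hc, hc'⟩ | hc)
          · exact (hCj c (core_win (h.ok j) hc')).2 hc
          · exact hc.1
        · intro hc
          by_cases hcj : c ∈ (K j).core
          · exact Or.inl ⟨(hCj c (core_win (h.ok j) hcj)).1 hc, hcj⟩
          · exact Or.inr ⟨hc, hcj⟩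
      rw [hCC] at r3
      exact ⟨B2, Relation.ReflTransGen.trans r1 (Relation.ReflTransGen.trans r2 r3)⟩
    · have hqc' : ∀ e, q ∉ (K e).core := fun e he => hqc ⟨e, he⟩
      by_cases hqw : ∃ e, q ∈ (K e).win m n (2 * k e + 1)
      · -- the target is in a moat
        obtain ⟨e, he⟩ := hqw
        by_cases hqP : q ∈ P e
        · have hpe : p ∈ (K e).core := by
            by_contra hpe
            rw [(hCB e hpe).1] at hqP
            exact hqP
          obtain ⟨u', B', f1, f2⟩ := hPu e hpe q hqP he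
          exact ⟨B', Relation.ReflTransGen.trans r1
            (Relation.ReflTransGen.trans (hwalk e u' f1) f2)⟩
        · exact ⟨C, Relation.ReflTransGen.trans r1 (hwalk e q ⟨he, hqc' e, hqP⟩)⟩
      · have hsea := sea h.ok hP h.dis' hC hC2 hub hu (board_conn hub hq)
        have r2 : Rch (board m n) ⟨C, u⟩ ⟨C, q⟩ :=
          (hsea.2.2 fun e he => hqw ⟨e, he⟩).rch fun c hc => hc
        exact ⟨C, Relation.ReflTransGen.trans r1 r2⟩

end MP82a8ee.Sparse
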