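import Pool.Agent.Lib.MP_82a8ee_lc.Few.Del

set_option autoImplicit false

namespace MP82a8ee.Sparse

open MP82a8ee MP82a8ee.Few

/-- One move of PUSH-1 in direction `d` on a board of any shape; `S` is the set of its cells. -/
inductive MoveIn (S : Set (ℤ × ℤ)) (d : Dir) : Position → Position → Prop
  | walk (B : Set (ℤ × ℤ)) (p : ℤ × ℤ) (hb : p + d.vec ∈ S) (hf : p + d.vec ∉ B) :
      MoveIn S d ⟨B, p⟩ ⟨B, p + d.vec⟩
  | push (B : Set (ℤ × ℤ)) (p : ℤ × ℤ) (hb : p + d.vec ∈ S) (hB : p + d.vec ∈ B)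
      (hb' : p + d.vec + d.vec ∈ S) (hf : p + d.vec + d.vec ∉ B) :
      MoveIn S d ⟨B, p⟩ ⟨insert (p + d.vec + d.vec) (B \ {p + d.vec}), p + d.vec⟩

/-- a sequence of moves on the board `S` -/
def Rch (S : Set (ℤ × ℤ)) : Position → Position → Prop :=
  Relation.ReflTransGen fun s t => ∃ d, MoveIn S d s t

/-- The instance (blocks `B`, robot at `p`, target `q`) of PUSH-1 on the board `S` is solvable. -/
def SolvableIn (S B : Set (ℤ × ℤ)) (p q : ℤ × ℤ) : Prop := ∃ B', Rch S ⟨B, p⟩ ⟨B', q⟩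

theorem moveIn_board {m n : ℕ} {d : Dir} {s t : Position} :
    MoveIn (board m n) d s t ↔ Move m n d s t := by
  constructor
  · intro h
    cases h with
    | walk B p hb hf => exact Move.walk B p hb hf
    | push B p hb hB hb' hf => exact Move.push B p hb hB hb' hf
  · intro h
    cases h with
    | walk B p hb hf => exact MoveIn.walk B p hb hf
    | push B p hb hB hb' hf => exact MoveIn.push B p hb hB hb' hf

theorem solvableIn_board {m n : ℕ} {B : Set (ℤ × ℤ)} {p q : ℤ × ℤ} :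
    SolvableIn (board m n) B p q ↔ Solvable m n B p q := by
  constructor
  · rintro ⟨B', h⟩
    have key : ∀ s t : Position, Rch (board m n) s t → ∃ l, Route m n l s t := by
      intro s t hst
      induction hst using Relation.ReflTransGen.head_induction_on with
      | refl => exact ⟨[], Route.nil _⟩
      | head h1 _ ih =>
        obtain ⟨d, h1⟩ := h1
        obtain ⟨l, h2⟩ := ih
        exact ⟨d :: l, Route.cons (moveIn_board.1 h1) h2⟩
    obtain ⟨l, hl⟩ := key _ _ h
    exact ⟨l, B', hl⟩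
  · rintro ⟨l, B', h⟩
    have key : ∀ (l : List Dir) (s t : Position), Route m n l s t → Rch (board m n) s t := by
      intro l s t hst
      induction hst with
      | nil s => exact Relation.ReflTransGen.refl
      | cons h1 _ ih => exact Relation.ReflTransGen.head ⟨_, moveIn_board.2 h1⟩ ih
    exact ⟨B', key _ _ _ h⟩

theorem Rch.one {S : Set (ℤ × ℤ)} {d : Dir} {s t : Position} (h : MoveIn S d s t) : Rch S s t :=
  Relation.ReflTransGen.single ⟨d, h⟩

theorem walk_line' {S B : Set (ℤ × ℤ)} {c : ℤ × ℤ} {d : Dir} (t : ℕ)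
    (h : ∀ i : ℤ, 1 ≤ i → i ≤ t → sh c d i ∈ S ∧ sh c d i ∉ B) :
    Rch S ⟨B, c⟩ ⟨B, sh c d t⟩ := by
  induction t with
  | zero =>
    have e : sh c d ((0 : ℕ) : ℤ) = c := sh_zero c d
    rw [e]; exact Relation.ReflTransGen.refl
  | succ t ih =>
    have h1 := ih (fun i h1 h2 => h i h1 (by push_cast; omega))
    obtain ⟨h2, h3⟩ := h (t + 1) (by omega) (by push_cast; omega)
    have h4 : MoveIn S d ⟨B, sh c d t⟩ ⟨B, sh c d t + d.vec⟩ :=
      MoveIn.walk B (sh c d t) (by rw [sh_succ]; exact h2) (by rw [sh_succ]; exact h3)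
    rw [sh_succ] at h4
    push_cast
    exact Relation.ReflTransGen.trans h1 (Rch.one h4)

theorem push_line' {S B : Set (ℤ × ℤ)} {c : ℤ × ℤ} {d : Dir} (t : ℕ)
    (hb : sh c d 1 ∈ S) (hB : sh c d 1 ∈ B)
    (h : ∀ i : ℤ, 1 ≤ i → i ≤ t → sh c d (1 + i) ∈ S ∧ sh c d (1 + i) ∉ B) :
    Rch S ⟨B, c⟩ ⟨insert (sh c d (t + 1)) (B \ {sh c d 1}), sh c d t⟩ := by
  induction t with
  | zero =>
    have e : sh c d ((0 : ℕ) : ℤ) = c := sh_zero c d
    have e2 : ((0 : ℕ) : ℤ) + 1 = 1 := by norm_num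
    rw [e, e2, Set.insert_sdiff_singleton, Set.insert_eq_of_mem hB]
    exact Relation.ReflTransGen.refl
  | succ t ih =>
    have h1 := ih (fun i h1 h2 => h i h1 (by push_cast; omega))
    obtain ⟨h2, h3⟩ := h (t + 1) (by omega) (by push_cast; omega)
    have e1 : (1 : ℤ) + (t + 1) = t + 1 + 1 := by ring
    rw [e1] at h2 h3
    have hin : sh c d (t + 1) ∈ insert (sh c d (t + 1)) (B \ {sh c d 1}) := Set.mem_insert _ _
    have hbo : sh c d (t + 1) ∈ S := by
      by_cases ht : (t : ℤ) = 0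
      · rw [ht, zero_add]; exact hb
      · have := (h t (by omega) (by push_cast; omega)).1
        rw [add_comm] at this; exact this
    have hnot : sh c d (t + 1) ∉ B \ {sh c d 1} := by
      rintro ⟨h4, h5⟩
      by_cases ht : (t : ℤ) = 0
      · rw [ht, zero_add] at h5; exact h5 rfl
      · have := (h t (by omega) (by push_cast; omega)).2
        rw [add_comm] at this; exact this h4
    have h4 : MoveIn S d ⟨insert (sh c d (t + 1)) (B \ {sh c d 1}), sh c d t⟩
        ⟨insert (sh c d t + d.vec + d.vec)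
          (insert (sh c d (t + 1)) (B \ {sh c d 1}) \ {sh c d t + d.vec}), sh c d t + d.vec⟩ := by
      refine MoveIn.push _ (sh c d t) ?_ ?_ ?_ ?_
      · rw [sh_succ]; exact hbo
      · rw [sh_succ]; exact hin
      · rw [sh_succ, sh_succ]; exact h2
      · rw [sh_succ, sh_succ]
        rintro (h6 | h6)
        · have := sh_inj h6; omega
        · exact h3 h6.1
    rw [sh_succ, sh_succ, Set.insert_sdiff_self_of_notMem hnot] at h4
    push_cast
    exact Relation.ReflTransGen.trans h1 (Rch.one h4)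

/-- push a block by `t` cells and come back to its former cell -/
theorem push_back' {S B : Set (ℤ × ℤ)} {c : ℤ × ℤ} {d : Dir} (t : ℕ) (ht : 1 ≤ t)
    (hb : sh c d 1 ∈ S) (hB : sh c d 1 ∈ B)
    (h : ∀ i : ℤ, 1 ≤ i → i ≤ t → sh c d (1 + i) ∈ S ∧ sh c d (1 + i) ∉ B) :
    Rch S ⟨B, c⟩ ⟨insert (sh c d (t + 1)) (B \ {sh c d 1}), sh c d 1⟩ := by
  have h1 := push_line' t hb hB h
  have h2 : Rch S ⟨insert (sh c d (t + 1)) (B \ {sh c d 1}), sh c d t⟩
      ⟨insert (sh c d (t + 1)) (B \ {sh c d 1}), sh (sh c d t) (opp d) ((t - 1 : ℕ) : ℤ)⟩ := by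
    refine walk_line' (t - 1) ?_
    intro i h3 h4
    rw [sh_opp]
    have h5 : (i : ℤ) ≤ t - 1 := by omega
    by_cases h6 : (t : ℤ) - i = 1
    · rw [h6]
      refine ⟨hb, ?_⟩
      rintro (h7 | h7)
      · have := sh_inj h7; omega
      · exact h7.2 rfl
    · have h7 := h (t - i - 1) (by omega) (by omega)
      have e : (1 : ℤ) + (t - i - 1) = t - i := by ring
      rw [e] at h7
      refine ⟨h7.1, ?_⟩
      rintro (h8 | h8)
      · have := sh_inj h8; omega
      · exact h7.2 h8.1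
  have e : sh (sh c d t) (opp d) ((t - 1 : ℕ) : ℤ) = sh c d 1 := by
    rw [sh_opp]
    congr 1
    omega
  rw [e] at h2
  exact Relation.ReflTransGen.trans h1 h2

/-! walking through free cells -/

/-- walking through cells with the property `Fr` -/
def St (Fr : ℤ × ℤ → Prop) : ℤ × ℤ → ℤ × ℤ → Prop :=
  Relation.ReflTransGen fun u v => (∃ d : Dir, v = u + d.vec) ∧ Fr v

theorem St.mono {Fr Fr' : ℤ × ℤ → Prop} (h : ∀ c, Fr c → Fr' c) {u v : ℤ × ℤ} (hs : St Fr u v) :
    St Fr' u v := by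
  induction hs with
  | refl => exact Relation.ReflTransGen.refl
  | tail _ h1 ih => exact Relation.ReflTransGen.tail ih ⟨h1.1, h _ h1.2⟩

theorem vec_opp (u : ℤ × ℤ) (d : Dir) : u + d.vec + (opp d).vec = u := by
  cases d <;> (apply Prod.ext <;> simp [Dir.vec, opp])

theorem St.symm {Fr : ℤ × ℤ → Prop} {u v : ℤ × ℤ} (hu : Fr u) (hs : St Fr u v) : St Fr v u := by
  have key : Fr v ∧ St Fr v u := by
    induction hs with
    | refl => exact ⟨hu, Relation.ReflTransGen.refl⟩
    | @tail b c _ h1 ih =>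
      obtain ⟨⟨d, hd⟩, h2⟩ := h1
      refine ⟨h2, Relation.ReflTransGen.head ⟨⟨opp d, ?_⟩, ih.1⟩ ih.2⟩
      rw [hd, vec_opp]
  exact key.2

theorem St.rch {S C : Set (ℤ × ℤ)} {Fr : ℤ × ℤ → Prop} (h : ∀ c, Fr c → c ∈ S ∧ c ∉ C)
    {u v : ℤ × ℤ} (hs : St Fr u v) : Rch S ⟨C, u⟩ ⟨C, v⟩ := by
  induction hs with
  | refl => exact Relation.ReflTransGen.refl
  | @tail b c _ h1 ih =>
    obtain ⟨⟨d, hd⟩, h2⟩ := h1
    obtain ⟨h3, h4⟩ := h c h2
    subst hd
    exact Relation.ReflTransGen.tail ih ⟨d, MoveIn.walk C b h3 h4⟩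

theorem St.swap {Fr : ℤ × ℤ → Prop} {u v : ℤ × ℤ} (hs : St (fun c => Fr c.swap) u v) :
    St Fr u.swap v.swap := by
  induction hs with
  | refl => exact Relation.ReflTransGen.refl
  | @tail b c _ h1 ih =>
    obtain ⟨⟨d, hd⟩, h2⟩ := h1
    refine Relation.ReflTransGen.tail ih ⟨⟨tr d, ?_⟩, h2⟩
    rw [hd, swap_add]

theorem st_vert {Fr : ℤ × ℤ → Prop} {ra rb i j y : ℤ} (h : ∀ x, ra ≤ x → x < rb → Fr (x, y))
    (hi : ra ≤ i) (hi' : i < rb) (hj : ra ≤ j) (hj' : j < rb) : St Fr (i, y) (j, y) := by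
  have key : ∀ (N : ℕ) (i : ℤ), ra ≤ i → i < rb → (j - i).natAbs = N → St Fr (i, y) (j, y) := by
    intro N
    induction N with
    | zero =>
      intro i _ _ hN
      have : i = j := by omega
      rw [this]; exact Relation.ReflTransGen.refl
    | succ N ih =>
      intro i h1 h2 hN
      rcases lt_or_ge i j with h3 | h3
      · refine Relation.ReflTransGen.head ⟨⟨Dir.down, ?_⟩, h (i + 1) (by omega) (by omega)⟩
          (ih (i + 1) (by omega) (by omega) (by omega))
        apply Prod.ext <;> simp [Dir.vec]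
      · refine Relation.ReflTransGen.head ⟨⟨Dir.up, ?_⟩, h (i - 1) (by omega) (by omega)⟩
          (ih (i - 1) (by omega) (by omega) (by omega))
        apply Prod.ext <;> simp [Dir.vec]; ring
  exact key _ i hi hi' rfl

theorem st_hor {Fr : ℤ × ℤ → Prop} {i y z : ℤ} (hz : z = y + 1 ∨ y = z + 1) (h : Fr (i, z)) :
    St Fr (i, y) (i, z) := by
  rcases hz with rfl | rfl
  · refine Relation.ReflTransGen.single ⟨⟨Dir.right, ?_⟩, h⟩
    apply Prod.ext <;> simp [Dir.vec]
  · refine Relation.ReflTransGen.single ⟨⟨Dir.left, ?_⟩, h⟩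
    apply Prod.ext <;> simp [Dir.vec]

/-- In a band of columns in which one of any two neighbouring columns is free, every column has a
free cell, and the column `z` is free, one can walk from each cell to each cell of column `z`. -/
theorem band {Fr : ℤ × ℤ → Prop} {ra rb ca cb z : ℤ} (hz : ca ≤ z) (hz' : z < cb)
    (h0 : ∀ x, ra ≤ x → x < rb → Fr (x, z))
    (h1 : ∀ y y' : ℤ, ca ≤ y → y < cb → ca ≤ y' → y' < cb → (y' = y + 1 ∨ y = y' + 1) →
      (∀ x, ra ≤ x → x < rb → Fr (x, y)) ∨ (∀ x, ra ≤ x → x < rb → Fr (x, y')))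
    (h2 : ∀ y, ca ≤ y → y < cb → ∃ x, ra ≤ x ∧ x < rb ∧ Fr (x, y)) {j : ℤ} (hj : ra ≤ j)
    (hj' : j < rb) (N : ℕ) : ∀ i y : ℤ, ca ≤ y → y < cb → ra ≤ i → i < rb →
      (y - z).natAbs = N → St Fr (i, y) (j, z) := by
  have adj : ∀ i y i' y' : ℤ, ra ≤ i → i < rb → ca ≤ y → y < cb → ra ≤ i' → i' < rb → ca ≤ y' →
      y' < cb → (y' = y + 1 ∨ y = y' + 1) → Fr (i', y') → St Fr (i, y) (i', y') := by
    intro i y i' y' a1 a2 a3 a4 a5 a6 a7 a8 a9 a10
    rcases h1 y y' a3 a4 a7 a8 a9 with h3 | h3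
    · exact Relation.ReflTransGen.trans (st_vert h3 a1 a2 a5 a6) (st_hor a9 a10)
    · exact Relation.ReflTransGen.trans (st_hor a9 (h3 i a1 a2)) (st_vert h3 a1 a2 a5 a6)
  induction N with
  | zero =>
    intro i y a1 a2 a3 a4 hN
    have : y = z := by omega
    rw [this]
    exact st_vert h0 a3 a4 hj hj'
  | succ N ih =>
    intro i y a1 a2 a3 a4 hN
    rcases lt_or_ge y z with h3 | h3
    · obtain ⟨i', b1, b2, b3⟩ := h2 (y + 1) (by omega) (by omega)
      exact Relation.ReflTransGen.trans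
        (adj i y i' (y + 1) a3 a4 a1 a2 b1 b2 (by omega) (by omega) (Or.inl rfl) b3)
        (ih i' (y + 1) (by omega) (by omega) b1 b2 (by omega))
    · obtain ⟨i', b1, b2, b3⟩ := h2 (y - 1) (by omega) (by omega)
      exact Relation.ReflTransGen.trans
        (adj i y i' (y - 1) a3 a4 a1 a2 b1 b2 (by omega) (by omega) (Or.inr (by omega)) b3)
        (ih i' (y - 1) (by omega) (by omega) b1 b2 (by omega))

end MP82a8ee.Sparse
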