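import Pool.Agent.Lib.MP_82a8ee_lc.Sparse.Reg

set_option autoImplicit false

namespace MP82a8ee.Sparse

open MP82a8ee MP82a8ee.Few

/-- a rectangle: the rows from `r0` to `r1 - 1` and the columns from `c0` to `c1 - 1` -/
structure Rect where
  r0 : ℤ
  r1 : ℤ
  c0 : ℤ
  c1 : ℤ

/-- the cells of the rectangle -/
def Rect.core (K : Rect) : Set (ℤ × ℤ) :=
  {c | K.r0 ≤ c.1 ∧ c.1 < K.r1 ∧ K.c0 ≤ c.2 ∧ c.2 < K.c1}

/-- the window: the cells of the board in the rectangle enlarged by `D` on each side -/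
def Rect.win (K : Rect) (m n : ℕ) (D : ℤ) : Set (ℤ × ℤ) :=
  {c | c ∈ board m n ∧ K.r0 - D ≤ c.1 ∧ c.1 < K.r1 + D ∧ K.c0 - D ≤ c.2 ∧ c.2 < K.c1 + D}

/-- The rectangle lies on the board; each of its sides is on the border of the board or at distance
at least `2 k + 1` from it; it contains neither a full row nor a full column of the board. -/
structure Rect.OK (K : Rect) (m n k : ℕ) : Prop where
  row : 0 ≤ K.r0 ∧ K.r0 < K.r1 ∧ K.r1 ≤ m
  col : 0 ≤ K.c0 ∧ K.c0 < K.c1 ∧ K.c1 ≤ n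
  up : K.r0 = 0 ∨ 2 * (k : ℤ) + 1 ≤ K.r0
  down : K.r1 = m ∨ K.r1 + (2 * k + 1) ≤ m
  left : K.c0 = 0 ∨ 2 * (k : ℤ) + 1 ≤ K.c0
  right : K.c1 = n ∨ K.c1 + (2 * k + 1) ≤ n
  nr : 0 < K.r0 ∨ K.r1 < m
  nc : 0 < K.c0 ∨ K.c1 < n

/-- how far a cell is beyond the side `d` of the rectangle -/
def lev (K : Rect) : Dir → ℤ × ℤ → ℤ
  | .up, c => K.r0 - c.1
  | .down, c => c.1 - K.r1 + 1
  | .left, c => K.c0 - c.2
  | .right, c => c.2 - K.c1 + 1

theorem core_iff {K : Rect} {c : ℤ × ℤ} : c ∈ K.core ↔ ∀ d, lev K d c ≤ 0 := by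
  constructor
  · rintro ⟨h1, h2, h3, h4⟩ d
    cases d <;> simp only [lev] <;> omega
  · intro h
    have h1 := h Dir.up
    have h2 := h Dir.down
    have h3 := h Dir.left
    have h4 := h Dir.right
    simp only [lev] at h1 h2 h3 h4
    exact ⟨by omega, by omega, by omega, by omega⟩

theorem win_iff {K : Rect} {m n : ℕ} {D : ℤ} {c : ℤ × ℤ} :
    c ∈ K.win m n D ↔ c ∈ board m n ∧ ∀ d, lev K d c ≤ D := by
  constructor
  · rintro ⟨h0, h1, h2, h3, h4⟩
    refine ⟨h0, fun d => ?_⟩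
    cases d <;> simp only [lev] <;> omega
  · rintro ⟨h0, h⟩
    have h1 := h Dir.up
    have h2 := h Dir.down
    have h3 := h Dir.left
    have h4 := h Dir.right
    simp only [lev] at h1 h2 h3 h4
    exact ⟨h0, by omega, by omega, by omega, by omega⟩

/-- the parked blocks -/
structure Par (K : Rect) (k : ℕ) (P : Set (ℤ × ℤ)) : Prop where
  arm : ∀ c ∈ P, ∃ (d : Dir) (j : ℤ), 1 ≤ j ∧ j ≤ k ∧ lev K d c = 2 * j ∧
    ∀ e, e ≠ d → lev K e c ≤ 0
  uni : ∀ c ∈ P, ∀ c' ∈ P, ∀ d, 0 < lev K d c → lev K d c = lev K d c' → c = c'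

/-- a free cell of the window outside of the rectangle -/
def Fr (K : Rect) (m n k : ℕ) (P : Set (ℤ × ℤ)) (c : ℤ × ℤ) : Prop :=
  c ∈ K.win m n (2 * k + 1) ∧ c ∉ K.core ∧ c ∉ P

theorem Par.even {K : Rect} {k : ℕ} {P : Set (ℤ × ℤ)} (h : Par K k P) {c : ℤ × ℤ} (hc : c ∈ P)
    {d : Dir} (hd : 0 < lev K d c) : ∃ j : ℤ, 1 ≤ j ∧ j ≤ k ∧ lev K d c = 2 * j := by
  obtain ⟨e, j, h1, h2, h3, h4⟩ := h.arm c hc
  by_cases he : d = e
  · subst he; exact ⟨j, h1, h2, h3⟩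
  · have := h4 d he; omega

section

variable {K : Rect} {m n k : ℕ} {P : Set (ℤ × ℤ)}

theorem right_band (hK : K.OK m n k) (hP : Par K k P) (hn : K.c1 < n) {i y j : ℤ}
    (hu : (i, y) ∈ K.win m n (2 * k + 1)) (hy : K.c1 ≤ y) (hj : 0 ≤ j) (hj' : j < m)
    (hj1 : K.r0 - (2 * k + 1) ≤ j) (hj2 : j < K.r1 + (2 * k + 1)) :
    St (Fr K m n k P) (i, y) (j, K.c1) := by
  have a1 := hK.row
  have a2 := hK.col
  have a3 := hK.up
  have a4 := hK.down
  have a5 := hK.right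
  have a6 := hK.nr
  obtain ⟨⟨b1, b2, b3, b4⟩, b5, b6, b7, b8⟩ := hu
  simp only at b1 b2 b3 b4 b5 b6 b7 b8
  have hwin : ∀ x z : ℤ, max 0 (K.r0 - (2 * k + 1)) ≤ x → x < min (m : ℤ) (K.r1 + (2 * k + 1)) →
      K.c1 ≤ z → z < K.c1 + (2 * k + 1) → (x, z) ∈ K.win m n (2 * k + 1) ∧ (x, z) ∉ K.core := by
    intro x z h1 h2 h3 h4
    refine ⟨⟨⟨?_, ?_, ?_, ?_⟩, ?_, ?_, ?_, ?_⟩, ?_⟩
    · simp only; omega
    · simp only; omega
    · simp only; omega
    · simp only; omega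
    · simp only; omega
    · simp only; omega
    · simp only; omega
    · simp only; omega
    · rintro ⟨_, _, _, h5⟩
      simp only at h5
      omega
  refine band (ra := max 0 (K.r0 - (2 * k + 1))) (rb := min (m : ℤ) (K.r1 + (2 * k + 1)))
    (ca := K.c1) (cb := K.c1 + (2 * k + 1)) (z := K.c1) le_rfl (by omega) ?_ ?_ ?_ (by omega)
    (by omega) (y - K.c1).natAbs i y hy (by omega) (by omega) (by omega) rfl
  · intro x h1 h2
    obtain ⟨w1, w2⟩ := hwin x K.c1 h1 h2 le_rfl (by omega)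
    refine ⟨w1, w2, fun h3 => ?_⟩
    obtain ⟨j', _, _, h4⟩ := hP.even h3 (d := Dir.right) (by simp only [lev]; omega)
    simp only [lev] at h4
    omega
  · intro y1 y2 h1 h2 h3 h4 h5
    by_contra hh
    rw [not_or] at hh
    obtain ⟨g1, g2⟩ := hh
    push Not at g1 g2
    obtain ⟨x1, e1, e2, e3⟩ := g1
    obtain ⟨x2, f1, f2, f3⟩ := g2
    obtain ⟨w1, w2⟩ := hwin x1 y1 e1 e2 h1 h2
    obtain ⟨w3, w4⟩ := hwin x2 y2 f1 f2 h3 h4
    have p1 : (x1, y1) ∈ P := by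
      by_contra hh; exact e3 ⟨w1, w2, hh⟩
    have p2 : (x2, y2) ∈ P := by
      by_contra hh; exact f3 ⟨w3, w4, hh⟩
    obtain ⟨j1, _, _, q1⟩ := hP.even p1 (d := Dir.right) (by simp only [lev]; omega)
    obtain ⟨j2, _, _, q2⟩ := hP.even p2 (d := Dir.right) (by simp only [lev]; omega)
    simp only [lev] at q1 q2
    omega
  · intro y1 h1 h2
    obtain ⟨w1, w2⟩ := hwin (max 0 (K.r0 - (2 * k + 1))) y1 le_rfl (by omega) h1 h2
    obtain ⟨w3, w4⟩ := hwin (max 0 (K.r0 - (2 * k + 1)) + 1) y1 (by omega) (by omega) h1 h2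
    by_cases h3 : (max 0 (K.r0 - (2 * k + 1)), y1) ∈ P
    · refine ⟨max 0 (K.r0 - (2 * k + 1)) + 1, by omega, by omega, w3, w4, fun h4 => ?_⟩
      have := hP.uni _ h3 _ h4 Dir.right (by simp only [lev]; omega) rfl
      have := congrArg Prod.fst this
      simp only at this
      omega
    · exact ⟨_, le_rfl, by omega, w1, w2, h3⟩

theorem left_band (hK : K.OK m n k) (hP : Par K k P) (hn : 0 < K.c0) {i y j : ℤ}
    (hu : (i, y) ∈ K.win m n (2 * k + 1)) (hy : y < K.c0) (hj : 0 ≤ j) (hj' : j < m)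
    (hj1 : K.r0 - (2 * k + 1) ≤ j) (hj2 : j < K.r1 + (2 * k + 1)) :
    St (Fr K m n k P) (i, y) (j, K.c0 - 1) := by
  have a1 := hK.row
  have a2 := hK.col
  have a3 := hK.up
  have a4 := hK.down
  have a5 := hK.left
  have a6 := hK.nr
  obtain ⟨⟨b1, b2, b3, b4⟩, b5, b6, b7, b8⟩ := hu
  simp only at b1 b2 b3 b4 b5 b6 b7 b8
  have hwin : ∀ x z : ℤ, max 0 (K.r0 - (2 * k + 1)) ≤ x → x < min (m : ℤ) (K.r1 + (2 * k + 1)) →
      K.c0 - (2 * k + 1) ≤ z → z < K.c0 → (x, z) ∈ K.win m n (2 * k + 1) ∧ (x, z) ∉ K.core := by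
    intro x z h1 h2 h3 h4
    refine ⟨⟨⟨?_, ?_, ?_, ?_⟩, ?_, ?_, ?_, ?_⟩, ?_⟩
    · simp only; omega
    · simp only; omega
    · simp only; omega
    · simp only; omega
    · simp only; omega
    · simp only; omega
    · simp only; omega
    · simp only; omega
    · rintro ⟨_, _, h5, _⟩
      simp only at h5
      omega
  refine band (ra := max 0 (K.r0 - (2 * k + 1))) (rb := min (m : ℤ) (K.r1 + (2 * k + 1)))
    (ca := K.c0 - (2 * k + 1)) (cb := K.c0) (z := K.c0 - 1) (by omega) (by omega) ?_ ?_ ?_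
    (by omega) (by omega) (y - (K.c0 - 1)).natAbs i y (by omega) (by omega) (by omega) (by omega)
    rfl
  · intro x h1 h2
    obtain ⟨w1, w2⟩ := hwin x (K.c0 - 1) h1 h2 (by omega) (by omega)
    refine ⟨w1, w2, fun h3 => ?_⟩
    obtain ⟨j', _, _, h4⟩ := hP.even h3 (d := Dir.left) (by simp only [lev]; omega)
    simp only [lev] at h4
    omega
  · intro y1 y2 h1 h2 h3 h4 h5
    by_contra hh
    rw [not_or] at hh
    obtain ⟨g1, g2⟩ := hh
    push Not at g1 g2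
    obtain ⟨x1, e1, e2, e3⟩ := g1
    obtain ⟨x2, f1, f2, f3⟩ := g2
    obtain ⟨w1, w2⟩ := hwin x1 y1 e1 e2 h1 h2
    obtain ⟨w3, w4⟩ := hwin x2 y2 f1 f2 h3 h4
    have p1 : (x1, y1) ∈ P := by
      by_contra hh; exact e3 ⟨w1, w2, hh⟩
    have p2 : (x2, y2) ∈ P := by
      by_contra hh; exact f3 ⟨w3, w4, hh⟩
    obtain ⟨j1, _, _, q1⟩ := hP.even p1 (d := Dir.left) (by simp only [lev]; omega)
    obtain ⟨j2, _, _, q2⟩ := hP.even p2 (d := Dir.left) (by simp only [lev]; omega)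
    simp only [lev] at q1 q2
    omega
  · intro y1 h1 h2
    obtain ⟨w1, w2⟩ := hwin (max 0 (K.r0 - (2 * k + 1))) y1 le_rfl (by omega) h1 h2
    obtain ⟨w3, w4⟩ := hwin (max 0 (K.r0 - (2 * k + 1)) + 1) y1 (by omega) (by omega) h1 h2
    by_cases h3 : (max 0 (K.r0 - (2 * k + 1)), y1) ∈ P
    · refine ⟨max 0 (K.r0 - (2 * k + 1)) + 1, by omega, by omega, w3, w4, fun h4 => ?_⟩
      have := hP.uni _ h3 _ h4 Dir.left (by simp only [lev]; omega) rfl
      have := congrArg Prod.fst this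
      simp only at this
      omega
    · exact ⟨_, le_rfl, by omega, w1, w2, h3⟩

/-! transposition -/

/-- the transposed rectangle -/
def Rect.sw (K : Rect) : Rect := ⟨K.c0, K.c1, K.r0, K.r1⟩

theorem OK.sw (hK : K.OK m n k) : K.sw.OK n m k :=
  ⟨hK.col, hK.row, hK.left, hK.right, hK.up, hK.down, hK.nc, hK.nr⟩

theorem tr_tr (d : Dir) : tr (tr d) = d := by cases d <;> rfl

theorem lev_sw (K : Rect) (d : Dir) (c : ℤ × ℤ) : lev K.sw d c = lev K (tr d) c.swap := by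
  cases d <;> rfl

theorem Par.sw (hP : Par K k P) : Par K.sw k {c | c.swap ∈ P} := by
  constructor
  · intro c hc
    obtain ⟨d, j, h1, h2, h3, h4⟩ := hP.arm c.swap hc
    refine ⟨tr d, j, h1, h2, ?_, ?_⟩
    · rw [lev_sw, tr_tr]; exact h3
    · intro e he
      rw [lev_sw]
      refine h4 (tr e) fun hh => he ?_
      rw [← hh, tr_tr]
  · intro c hc c' hc' d h1 h2
    rw [lev_sw] at h1
    rw [lev_sw, lev_sw] at h2
    have := hP.uni _ hc _ hc' (tr d) h1 h2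
    exact Prod.swap_injective this

theorem Fr.sw {c : ℤ × ℤ} (h : Fr K.sw n m k {c | c.swap ∈ P} c) : Fr K m n k P c.swap := by
  obtain ⟨⟨⟨a1, a2, a3, a4⟩, b1, b2, b3, b4⟩, h2, h3⟩ := h
  refine ⟨⟨⟨a3, a4, a1, a2⟩, b3, b4, b1, b2⟩, ?_, h3⟩
  rintro ⟨c1, c2, c3, c4⟩
  exact h2 ⟨c3, c4, c1, c2⟩

theorem down_band (hK : K.OK m n k) (hP : Par K k P) (hm : K.r1 < m) {i y j : ℤ}
    (hu : (i, y) ∈ K.win m n (2 * k + 1)) (hi : K.r1 ≤ i) (hj : 0 ≤ j) (hj' : j < n)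
    (hj1 : K.c0 - (2 * k + 1) ≤ j) (hj2 : j < K.c1 + (2 * k + 1)) :
    St (Fr K m n k P) (i, y) (K.r1, j) := by
  obtain ⟨⟨b1, b2, b3, b4⟩, b5, b6, b7, b8⟩ := hu
  have h1 := right_band (K := K.sw) (OK.sw hK) hP.sw hm (i := y) (y := i) (j := j)
    ⟨⟨b3, b4, b1, b2⟩, b7, b8, b5, b6⟩ hi hj hj' hj1 hj2
  exact (h1.mono (fun c hc => Fr.sw hc)).swap

theorem up_band (hK : K.OK m n k) (hP : Par K k P) (hm : 0 < K.r0) {i y j : ℤ}
    (hu : (i, y) ∈ K.win m n (2 * k + 1)) (hi : i < K.r0) (hj : 0 ≤ j) (hj' : j < n)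
    (hj1 : K.c0 - (2 * k + 1) ≤ j) (hj2 : j < K.c1 + (2 * k + 1)) :
    St (Fr K m n k P) (i, y) (K.r0 - 1, j) := by
  obtain ⟨⟨b1, b2, b3, b4⟩, b5, b6, b7, b8⟩ := hu
  have h1 := left_band (K := K.sw) (OK.sw hK) hP.sw hm (i := y) (y := i) (j := j)
    ⟨⟨b3, b4, b1, b2⟩, b7, b8, b5, b6⟩ hi hj hj' hj1 hj2
  exact (h1.mono (fun c hc => Fr.sw hc)).swap

/-- all free cells of the window outside of the rectangle are connected -/
theorem ring (hK : K.OK m n k) (hP : Par K k P) {u v : ℤ × ℤ} (hu : Fr K m n k P u)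
    (hv : Fr K m n k P v) : St (Fr K m n k P) u v := by
  have a1 := hK.row
  have a2 := hK.col
  have a3 := hK.up
  have a4 := hK.down
  have a5 := hK.left
  have a6 := hK.right
  have a7 := hK.nr
  have a8 := hK.nc
  -- the columns and rows of the hubs
  obtain ⟨yV, hyV⟩ : ∃ y : ℤ, (y = K.c1 ∧ K.c1 < n) ∨ (y = K.c0 - 1 ∧ 0 < K.c0) := by
    rcases a8 with h | h
    · exact ⟨_, Or.inr ⟨rfl, h⟩⟩
    · exact ⟨_, Or.inl ⟨rfl, h⟩⟩
  obtain ⟨xH, hxH⟩ : ∃ x : ℤ, (x = K.r1 ∧ K.r1 < m) ∨ (x = K.r0 - 1 ∧ 0 < K.r0) := by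
    rcases a7 with h | h
    · exact ⟨_, Or.inr ⟨rfl, h⟩⟩
    · exact ⟨_, Or.inl ⟨rfl, h⟩⟩
  have F2 : ∀ y x x2 : ℤ, (y = K.c1 ∧ K.c1 < n) ∨ (y = K.c0 - 1 ∧ 0 < K.c0) →
      0 ≤ x → x < m → K.r0 - (2 * k + 1) ≤ x → x < K.r1 + (2 * k + 1) →
      0 ≤ x2 → x2 < m → K.r0 - (2 * k + 1) ≤ x2 → x2 < K.r1 + (2 * k + 1) →
      St (Fr K m n k P) (x, y) (x2, y) := by
    intro y x x2 hy h1 h2 h3 h4 h5 h6 h7 h8
    rcases hy with ⟨rfl, h⟩ | ⟨rfl, h⟩
    · exact right_band hK hP h ⟨⟨h1, h2, by simp only; omega, by simp only; omega⟩, h3, h4,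
        by simp only; omega, by simp only; omega⟩ le_rfl h5 h6 h7 h8
    · exact left_band hK hP h ⟨⟨h1, h2, by simp only; omega, by simp only; omega⟩, h3, h4,
        by simp only; omega, by simp only; omega⟩ (by omega) h5 h6 h7 h8
  have F3 : ∀ x y y2 : ℤ, (x = K.r1 ∧ K.r1 < m) ∨ (x = K.r0 - 1 ∧ 0 < K.r0) →
      0 ≤ y → y < n → K.c0 - (2 * k + 1) ≤ y → y < K.c1 + (2 * k + 1) →
      0 ≤ y2 → y2 < n → K.c0 - (2 * k + 1) ≤ y2 → y2 < K.c1 + (2 * k + 1) →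
      St (Fr K m n k P) (x, y) (x, y2) := by
    intro x y y2 hx h1 h2 h3 h4 h5 h6 h7 h8
    rcases hx with ⟨rfl, h⟩ | ⟨rfl, h⟩
    · exact down_band hK hP h ⟨⟨by simp only; omega, by simp only; omega, h1, h2⟩,
        by simp only; omega, by simp only; omega, h3, h4⟩ le_rfl h5 h6 h7 h8
    · exact up_band hK hP h ⟨⟨by simp only; omega, by simp only; omega, h1, h2⟩,
        by simp only; omega, by simp only; omega, h3, h4⟩ (by omega) h5 h6 h7 h8
  have key : ∀ u : ℤ × ℤ, Fr K m n k P u → St (Fr K m n k P) u (xH, yV) := by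
    rintro ⟨i, y⟩ hu
    have hw := hu.1
    have hc := hu.2.1
    obtain ⟨⟨b1, b2, b3, b4⟩, b5, b6, b7, b8⟩ := hw
    simp only at b1 b2 b3 b4 b5 b6 b7 b8
    by_cases e1 : K.c1 ≤ y
    · have h1 := right_band hK hP (by omega) hu.1 e1 (j := xH) (by omega) (by omega) (by omega)
        (by omega)
      exact Relation.ReflTransGen.trans h1 (F3 xH K.c1 yV hxH (by omega) (by omega) (by omega)
        (by omega) (by omega) (by omega) (by omega) (by omega))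
    by_cases e2 : y < K.c0
    · have h1 := left_band hK hP (by omega) hu.1 e2 (j := xH) (by omega) (by omega) (by omega)
        (by omega)
      exact Relation.ReflTransGen.trans h1 (F3 xH (K.c0 - 1) yV hxH (by omega) (by omega)
        (by omega) (by omega) (by omega) (by omega) (by omega) (by omega))
    by_cases e3 : K.r1 ≤ i
    · have h1 := down_band hK hP (by omega) hu.1 e3 (j := yV) (by omega) (by omega) (by omega)
        (by omega)
      exact Relation.ReflTransGen.trans h1 (F2 yV K.r1 xH hyV (by omega) (by omega) (by omega)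
        (by omega) (by omega) (by omega) (by omega) (by omega))
    by_cases e4 : i < K.r0
    · have h1 := up_band hK hP (by omega) hu.1 e4 (j := yV) (by omega) (by omega) (by omega)
        (by omega)
      exact Relation.ReflTransGen.trans h1 (F2 yV (K.r0 - 1) xH hyV (by omega) (by omega)
        (by omega) (by omega) (by omega) (by omega) (by omega) (by omega))
    exact absurd ⟨by simp only; omega, by simp only; omega, by simp only; omega,
      by simp only; omega⟩ hc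
  exact Relation.ReflTransGen.trans (key u hu) ((key v hv).symm hv)

end

end MP82a8ee.Sparse
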