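import Pool.Agent.Lib.MP_82a8ee_lc.Sparse.Glob

set_option autoImplicit false

namespace MP82a8ee.Sparse

open MP82a8ee MP82a8ee.Few

/-! a window is a board -/

theorem moveIn_shift {S : Set (ℤ × ℤ)} {d : Dir} {s t : Position} (v : ℤ × ℤ)
    (h : MoveIn S d s t) : MoveIn {c | c + v ∈ S} d ⟨{c | c + v ∈ s.blocks}, s.robot - v⟩
      ⟨{c | c + v ∈ t.blocks}, t.robot - v⟩ := by
  obtain ⟨B, p, B1, rfl, rfl, hb, hB⟩ := move_cases' h
  simp only
  have e1 : p + d.vec - v = p - v + d.vec := by abel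
  have e2 : p - v + d.vec + v = p + d.vec := by abel
  have e3 : p - v + d.vec + d.vec + v = p + d.vec + d.vec := by abel
  rw [e1]
  rcases hB with ⟨h1, rfl⟩ | ⟨h1, h2, h3, rfl⟩
  · refine MoveIn.walk _ _ ?_ ?_
    · rw [Set.mem_ofPred_eq, e2]; exact hb
    · rw [Set.mem_ofPred_eq, e2]; exact h1
  · have e4 : {c | c + v ∈ insert (p + d.vec + d.vec) (B \ {p + d.vec})} =
        insert (p - v + d.vec + d.vec) ({c | c + v ∈ B} \ {p - v + d.vec}) := by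
      ext c
      simp only [Set.mem_ofPred_eq, Set.mem_insert_iff, Set.mem_sdiff, Set.mem_singleton_iff]
      rw [← e3, ← e2, add_left_inj, add_left_inj]
    rw [e4]
    refine MoveIn.push _ _ ?_ ?_ ?_ ?_
    · rw [Set.mem_ofPred_eq, e2]; exact hb
    · rw [Set.mem_ofPred_eq, e2]; exact h1
    · rw [Set.mem_ofPred_eq, e3]; exact h2
    · rw [Set.mem_ofPred_eq, e3]; exact h3

theorem solvableIn_shift {S B : Set (ℤ × ℤ)} {p q : ℤ × ℤ} (v : ℤ × ℤ)
    (h : SolvableIn S B p q) :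
    SolvableIn {c | c + v ∈ S} {c | c + v ∈ B} (p - v) (q - v) := by
  obtain ⟨B', h⟩ := h
  have key : ∀ t : Position, Rch S ⟨B, p⟩ t →
      Rch {c | c + v ∈ S} ⟨{c | c + v ∈ B}, p - v⟩ ⟨{c | c + v ∈ t.blocks}, t.robot - v⟩ := by
    intro t ht
    induction ht with
    | refl => exact Relation.ReflTransGen.refl
    | tail _ h1 ih =>
      obtain ⟨d, h1⟩ := h1
      exact Relation.ReflTransGen.tail ih ⟨d, moveIn_shift v h1⟩
  exact ⟨_, key _ h⟩

theorem shift_iff {S B : Set (ℤ × ℤ)} {p q : ℤ × ℤ} (v : ℤ × ℤ) :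
    SolvableIn S B p q ↔ SolvableIn {c | c + v ∈ S} {c | c + v ∈ B} (p - v) (q - v) := by
  refine ⟨solvableIn_shift v, fun h => ?_⟩
  have h1 := solvableIn_shift (-v) h
  have e : ∀ X : Set (ℤ × ℤ), {c | c + -v ∈ {c | c + v ∈ X}} = X := by
    intro X
    ext c
    simp
  rw [e, e] at h1
  simpa using h1

/-- each window is a board -/
theorem win_eq {K : Rect} {m n k : ℕ} (hK : K.OK m n k) :
    ∃ (m' n' : ℕ) (v : ℤ × ℤ), 2 ≤ m' ∧ 2 ≤ n' ∧ (m' : ℤ) ≤ K.r1 - K.r0 + (4 * k + 2) ∧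
      (n' : ℤ) ≤ K.c1 - K.c0 + (4 * k + 2) ∧
      ∀ (B : Set (ℤ × ℤ)) (p q : ℤ × ℤ), SolvableIn (K.win m n (2 * k + 1)) B p q ↔
        Solvable m' n' {c | c + v ∈ B} (p - v) (q - v) := by
  obtain ⟨a1, a2, a3⟩ := hK.row
  obtain ⟨b1, b2, b3⟩ := hK.col
  have c1 := hK.up
  have c2 := hK.down
  have c3 := hK.left
  have c4 := hK.right
  have c5 := hK.nr
  have c6 := hK.nc
  refine ⟨(min (m : ℤ) (K.r1 + (2 * k + 1)) - max 0 (K.r0 - (2 * k + 1))).toNat,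
    (min (n : ℤ) (K.c1 + (2 * k + 1)) - max 0 (K.c0 - (2 * k + 1))).toNat,
    (max 0 (K.r0 - (2 * k + 1)), max 0 (K.c0 - (2 * k + 1))), by omega, by omega, by omega,
    by omega, ?_⟩
  intro B p q
  rw [shift_iff (max 0 (K.r0 - (2 * k + 1)), max 0 (K.c0 - (2 * k + 1))), ← solvableIn_board]
  have e : {c | c + (max 0 (K.r0 - (2 * k + 1)), max 0 (K.c0 - (2 * k + 1))) ∈
      K.win m n (2 * k + 1)} =
      board (min (m : ℤ) (K.r1 + (2 * k + 1)) - max 0 (K.r0 - (2 * k + 1))).toNat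
        (min (n : ℤ) (K.c1 + (2 * k + 1)) - max 0 (K.c0 - (2 * k + 1))).toNat := by
    ext ⟨x, y⟩
    constructor
    · rintro ⟨⟨g1, g2, g3, g4⟩, g5, g6, g7, g8⟩
      simp only [Prod.fst_add, Prod.snd_add] at g1 g2 g3 g4 g5 g6 g7 g8
      exact ⟨by simp only; omega, by simp only; omega, by simp only; omega, by simp only; omega⟩
    · rintro ⟨g1, g2, g3, g4⟩
      simp only at g1 g2 g3 g4
      refine ⟨⟨?_, ?_, ?_, ?_⟩, ?_, ?_, ?_, ?_⟩ <;>
        simp only [Prod.fst_add, Prod.snd_add] <;> omega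
  rw [e]

/-- the outermost layer of a window is not empty -/
theorem layer {K : Rect} {m n k : ℕ} (hK : K.OK m n k) :
    (K.win m n (2 * k + 1) \ K.win m n (2 * k)).Nonempty := by
  obtain ⟨a1, a2, a3⟩ := hK.row
  obtain ⟨b1, b2, b3⟩ := hK.col
  rcases hK.nr with h | h
  · have := hK.up
    refine ⟨(K.r0 - (2 * k + 1), K.c0), ⟨⟨?_, ?_, ?_, ?_⟩, ?_, ?_, ?_, ?_⟩, ?_⟩ <;>
      first
        | (simp only; omega)
        | (rintro ⟨_, g, _⟩; simp only at g; omega)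
  · have := hK.down
    refine ⟨(K.r1 + 2 * k, K.c0), ⟨⟨?_, ?_, ?_, ?_⟩, ?_, ?_, ?_, ?_⟩, ?_⟩ <;>
      first
        | (simp only; omega)
        | (rintro ⟨_, _, g, _⟩; simp only at g; omega)

end MP82a8ee.Sparse
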