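import Pool.Agent.Lib.MP_82a8ee_lc.Sparse.Ring

set_option autoImplicit false

namespace MP82a8ee.Sparse

open MP82a8ee MP82a8ee.Few

/-! A rectangle with a wide empty moat: what happens outside does not matter. -/

/-- active blocks `A` in the rectangle, parked blocks `P` in the moat, other blocks `O` -/
structure Cf (K : Rect) (m n k : ℕ) (A : Finset (ℤ × ℤ)) (P O : Set (ℤ × ℤ)) (l : Dir → ℕ)
    (B : Set (ℤ × ℤ)) : Prop where
  card : A.card + (l .up + l .down + l .left + l .right) ≤ k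
  core : ∀ c ∈ A, c ∈ K.core
  sub : ∀ c ∈ A, c ∈ B
  arm : ∀ c ∈ P, ∃ (d : Dir) (j : ℤ), (k : ℤ) - l d < j ∧ j ≤ k ∧ lev K d c = 2 * j ∧
    ∀ e, e ≠ d → lev K e c ≤ 0
  uni : ∀ c ∈ P, ∀ c' ∈ P, ∀ d, 0 < lev K d c → lev K d c = lev K d c' → c = c'
  brd : ∀ c ∈ P, c ∈ board m n
  oth : ∀ c ∈ O, c ∉ K.win m n (2 * k + 1)

theorem le_sum (l : Dir → ℕ) (d : Dir) : l d ≤ l .up + l .down + l .left + l .right := by
  cases d <;> omega

theorem sum_update (l : Dir → ℕ) (d : Dir) :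
    Function.update l d (l d + 1) .up + Function.update l d (l d + 1) .down +
      Function.update l d (l d + 1) .left + Function.update l d (l d + 1) .right =
      l .up + l .down + l .left + l .right + 1 := by
  cases d <;> simp [Function.update] <;> omega

theorem lev_sh (K : Rect) (c : ℤ × ℤ) (d : Dir) (t : ℤ) :
    lev K d (sh c d t) = lev K d c + t := by
  cases d <;> simp only [lev, sh, Dir.vec] <;> ring

theorem lev_sh_ne (K : Rect) (c : ℤ × ℤ) (d e : Dir) (t : ℤ) (h : e ≠ d) (ht : 0 ≤ t) :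
    lev K e (sh c d t) ≤ lev K e c := by
  cases d <;> cases e <;> first | exact absurd rfl h | (simp only [lev, sh, Dir.vec]; omega)

/-- the robot in the two boards -/
def Rob2 (K : Rect) (m n k : ℕ) (P : Set (ℤ × ℤ)) (p p' : ℤ × ℤ) : Prop :=
  (p ∈ K.core ∧ p' = p) ∨ (p ∉ K.core ∧ Fr K m n k P p')

/-- the positions of the two boards -/
def Rel2 (K : Rect) (m n k : ℕ) (O : Set (ℤ × ℤ)) (s s' : Position) : Prop :=
  ∃ (A : Finset (ℤ × ℤ)) (P : Set (ℤ × ℤ)) (l : Dir → ℕ), Cf K m n k A P O l s.blocks ∧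
    s'.blocks = (A : Set (ℤ × ℤ)) ∪ P ∪ O ∧ s.robot ∈ board m n ∧
    Rob2 K m n k P s.robot s'.robot

theorem move_cases' {S : Set (ℤ × ℤ)} {d : Dir} {s t : Position} (h : MoveIn S d s t) :
    ∃ (B : Set (ℤ × ℤ)) (p : ℤ × ℤ) (B1 : Set (ℤ × ℤ)), s = ⟨B, p⟩ ∧ t = ⟨B1, p + d.vec⟩ ∧
      p + d.vec ∈ S ∧ ((p + d.vec ∉ B ∧ B1 = B) ∨
        (p + d.vec ∈ B ∧ p + d.vec + d.vec ∈ S ∧ p + d.vec + d.vec ∉ B ∧
          B1 = insert (p + d.vec + d.vec) (B \ {p + d.vec}))) := by
  cases h with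
  | walk B p hb hf => exact ⟨B, p, B, rfl, rfl, hb, Or.inl ⟨hf, rfl⟩⟩
  | push B p hb hB hb' hf => exact ⟨B, p, _, rfl, rfl, hb, Or.inr ⟨hB, hb', hf, rfl⟩⟩

section

variable {K : Rect} {m n k : ℕ} {P O : Set (ℤ × ℤ)} {A : Finset (ℤ × ℤ)} {l : Dir → ℕ}
  {B : Set (ℤ × ℤ)}

theorem Cf.par (h : Cf K m n k A P O l B) : Par K k P := by
  refine ⟨fun c hc => ?_, h.uni⟩
  obtain ⟨d, j, h1, h2, h3, h4⟩ := h.arm c hc
  have h5 := h.card
  have h6 := le_sum l d
  exact ⟨d, j, by omega, h2, h3, h4⟩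

theorem core_win (hK : K.OK m n k) {c : ℤ × ℤ} (h : c ∈ K.core) :
    c ∈ K.win m n (2 * k + 1) := by
  obtain ⟨a1, a2, a3⟩ := hK.row
  obtain ⟨b1, b2, b3⟩ := hK.col
  obtain ⟨h1, h2, h3, h4⟩ := h
  exact ⟨⟨by omega, by omega, by omega, by omega⟩, by omega, by omega, by omega, by omega⟩

theorem Par.not_core (hP : Par K k P) {c : ℤ × ℤ} (hc : c ∈ P) : c ∉ K.core := by
  intro h
  obtain ⟨d, j, h1, h2, h3, h4⟩ := hP.arm c hc
  have := core_iff.1 h d
  omega

theorem adj_fr (hP : Par K k P) {c c' : ℤ × ℤ} {d : Dir} (hc : c ∈ K.core)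
    (hc' : c' ∉ K.core) (hb : c' ∈ board m n) (h : c' = c + d.vec) : Fr K m n k P c' := by
  have h1 : ∀ e, lev K e c' ≤ 1 := by
    intro e
    rw [h, ← sh_one]
    by_cases he : e = d
    · subst he
      rw [lev_sh]
      have := core_iff.1 hc e
      omega
    · have h2 := lev_sh_ne K c d e 1 he (by norm_num)
      have := core_iff.1 hc e
      omega
  refine ⟨win_iff.2 ⟨hb, fun e => by have := h1 e; omega⟩, hc', fun h2 => ?_⟩
  obtain ⟨e, j, h3, h4, h5, h6⟩ := hP.arm c' h2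
  have := h1 e
  omega

theorem room (hK : K.OK m n k) {x : ℤ × ℤ} {d : Dir} (hx : x ∈ K.core)
    (hb : x + d.vec ∈ board m n) (h0 : lev K d x = 0) {i : ℤ} (hi : 0 ≤ i)
    (hi' : i ≤ 2 * k + 1) : sh x d i ∈ board m n := by
  obtain ⟨a1, a2, a3⟩ := hK.row
  obtain ⟨b1, b2, b3⟩ := hK.col
  have c1 := hK.up
  have c2 := hK.down
  have c3 := hK.left
  have c4 := hK.right
  obtain ⟨h1, h2, h3, h4⟩ := hx
  obtain ⟨g1, g2, g3, g4⟩ := hb
  cases d <;> simp only [lev, Dir.vec, Prod.fst_add, Prod.snd_add] at h0 g1 g2 g3 g4 <;>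
    exact ⟨by simp only [sh, Dir.vec]; omega, by simp only [sh, Dir.vec]; omega,
      by simp only [sh, Dir.vec]; omega, by simp only [sh, Dir.vec]; omega⟩

theorem union_erase' {x z : ℤ × ℤ} (hx : x ∉ P) (hx' : x ∉ O) :
    insert z (((A : Set (ℤ × ℤ)) ∪ P ∪ O) \ {x}) =
      ((A.erase x : Finset (ℤ × ℤ)) : Set (ℤ × ℤ)) ∪ insert z P ∪ O := by
  ext c
  simp only [Set.mem_insert_iff, Set.mem_sdiff, Set.mem_union, Set.mem_singleton_iff,
    Finset.coe_erase, Finset.mem_coe]
  constructor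
  · rintro (h | ⟨(h | h) | h, h'⟩)
    · exact Or.inl (Or.inr (Or.inl h))
    · exact Or.inl (Or.inl ⟨h, h'⟩)
    · exact Or.inl (Or.inr (Or.inr h))
    · exact Or.inr h
  · rintro ((⟨h, h'⟩ | h | h) | h)
    · exact Or.inr ⟨Or.inl (Or.inl h), h'⟩
    · exact Or.inl h
    · exact Or.inr ⟨Or.inl (Or.inr h), fun hh => hx (hh ▸ h)⟩
    · exact Or.inr ⟨Or.inr h, fun hh => hx' (hh ▸ h)⟩

theorem union_move' {x z : ℤ × ℤ} (hx : x ∉ P) (hx' : x ∉ O) :
    insert z (((A : Set (ℤ × ℤ)) ∪ P ∪ O) \ {x}) =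
      ((insert z (A.erase x) : Finset (ℤ × ℤ)) : Set (ℤ × ℤ)) ∪ P ∪ O := by
  rw [union_erase' hx hx', Finset.coe_insert, Set.insert_union, Set.union_insert]

theorem sim2 (hK : K.OK m n k) {S T : Set (ℤ × ℤ)} (hS : S ⊆ board m n)
    (hT : K.win m n (2 * k + 1) ⊆ T) {d : Dir} {s t s' : Position}
    (hs : Rel2 K m n k O s s') (hmv : MoveIn S d s t) :
    ∃ t', Rch T s' t' ∧ Rel2 K m n k O t t' := by
  obtain ⟨B, p, B1, rfl, rfl, hb, hB⟩ := move_cases' hmv
  obtain ⟨A, P, l, hc, hbl, hro, hrob⟩ := hs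
  obtain ⟨C, p'⟩ := s'
  have hbl' : C = (A : Set (ℤ × ℤ)) ∪ P ∪ O := hbl
  subst hbl'
  have hc' : Cf K m n k A P O l B := hc
  have hro' : p ∈ board m n := hro
  have hrob' : Rob2 K m n k P p p' := hrob
  clear hc hbl hro hrob
  obtain ⟨x, hx⟩ : ∃ x, x = p + d.vec := ⟨_, rfl⟩
  rw [← hx] at hb hB ⊢
  have hP := hc'.par
  have hkeep : x ∉ A → Cf K m n k A P O l B1 := by
    intro hh
    refine ⟨hc'.card, hc'.core, ?_, hc'.arm, hc'.uni, hc'.brd, hc'.oth⟩
    intro c hcA
    have h1 := hc'.sub c hcA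
    rcases hB with ⟨_, rfl⟩ | ⟨_, _, _, rfl⟩
    · exact h1
    · exact Set.mem_insert_of_mem _ ⟨h1, fun h2 => hh (h2 ▸ hcA)⟩
  have hfrC : ∀ c, Fr K m n k P c → c ∈ T ∧ c ∉ (A : Set (ℤ × ℤ)) ∪ P ∪ O := by
    intro c h
    refine ⟨hT h.1, ?_⟩
    rintro ((h1 | h1) | h1)
    · exact h.2.1 (hc'.core c h1)
    · exact h.2.2 h1
    · exact hc'.oth c h1 h.1
  have hcoreC : ∀ c, c ∈ K.core → c ∉ A → c ∉ (A : Set (ℤ × ℤ)) ∪ P ∪ O := by
    rintro c h h' ((h1 | h1) | h1)
    · exact h' h1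
    · exact hP.not_core h1 h
    · exact hc'.oth c h1 (core_win hK h)
  have hbx : x ∈ board m n := hS hb
  by_cases hin : x ∈ K.core
  swap
  · -- the robot is outside after the move
    have hcf := hkeep fun h => hin (hc'.core x h)
    rcases hrob' with ⟨h1, rfl⟩ | ⟨h1, h2⟩
    · have hfx : Fr K m n k P x := adj_fr hP h1 hin hbx hx
      obtain ⟨h3, h4⟩ := hfrC x hfx
      have h5 : MoveIn T d ⟨(A : Set (ℤ × ℤ)) ∪ P ∪ O, p'⟩
          ⟨(A : Set (ℤ × ℤ)) ∪ P ∪ O, p' + d.vec⟩ :=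
        MoveIn.walk _ _ (by rw [← hx]; exact h3) (by rw [← hx]; exact h4)
      rw [← hx] at h5
      exact ⟨_, Rch.one h5, A, P, l, hcf, rfl, hbx, Or.inr ⟨hin, hfx⟩⟩
    · exact ⟨_, Relation.ReflTransGen.refl, A, P, l, hcf, rfl, hbx, Or.inr ⟨hin, h2⟩⟩
  -- the robot is in the rectangle after the move
  have hG : Rch T ⟨(A : Set (ℤ × ℤ)) ∪ P ∪ O, p'⟩ ⟨(A : Set (ℤ × ℤ)) ∪ P ∪ O, p⟩ := by
    rcases hrob' with ⟨h1, rfl⟩ | ⟨h1, h2⟩
    · exact Relation.ReflTransGen.refl
    · have hfp : Fr K m n k P p :=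
        adj_fr (d := opp d) hP hin h1 hro' (by rw [hx, vec_opp])
      exact (ring hK hP h2 hfp).rch hfrC
  by_cases hxA : x ∈ A
  swap
  · have h5 : MoveIn T d ⟨(A : Set (ℤ × ℤ)) ∪ P ∪ O, p⟩
        ⟨(A : Set (ℤ × ℤ)) ∪ P ∪ O, p + d.vec⟩ :=
      MoveIn.walk _ _ (by rw [← hx]; exact hT (core_win hK hin))
        (by rw [← hx]; exact hcoreC x hin hxA)
    rw [← hx] at h5
    exact ⟨_, Relation.ReflTransGen.trans hG (Rch.one h5), A, P, l, hkeep hxA, rfl, hbx,
      Or.inl ⟨hin, rfl⟩⟩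
  rcases hB with ⟨h1, _⟩ | ⟨h1, h2, h3, rfl⟩
  · exact absurd (hc'.sub x hxA) h1
  have hxP : x ∉ P := fun h => hP.not_core h hin
  have hxO : x ∉ O := fun h => hc'.oth x h (core_win hK hin)
  have hxC : x ∈ (A : Set (ℤ × ℤ)) ∪ P ∪ O := Or.inl (Or.inl hxA)
  have hcard := hc'.card
  have herase : (A.erase x).card + 1 = A.card := Finset.card_erase_add_one hxA
  have hsub : ∀ c ∈ A.erase x, c ∈ insert (x + d.vec) (B \ {x}) := by
    intro c hcA
    rw [Finset.mem_erase] at hcA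
    exact Set.mem_insert_of_mem _ ⟨hc'.sub c hcA.2, hcA.1⟩
  by_cases hy : x + d.vec ∈ K.core
  · -- the block stays in the rectangle
    have hyA : x + d.vec ∉ A := fun h => h3 (hc'.sub _ h)
    have h5 : MoveIn T d ⟨(A : Set (ℤ × ℤ)) ∪ P ∪ O, p⟩
        ⟨insert (p + d.vec + d.vec) (((A : Set (ℤ × ℤ)) ∪ P ∪ O) \ {p + d.vec}), p + d.vec⟩ := by
      refine MoveIn.push _ _ ?_ ?_ ?_ ?_
      · rw [← hx]; exact hT (core_win hK hin)
      · rw [← hx]; exact hxC
      · rw [← hx]; exact hT (core_win hK hy)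
      · rw [← hx]; exact hcoreC _ hy hyA
    rw [← hx, union_move' hxP hxO] at h5
    refine ⟨_, Relation.ReflTransGen.trans hG (Rch.one h5), _, P, l, ⟨?_, ?_, ?_, hc'.arm,
      hc'.uni, hc'.brd, hc'.oth⟩, rfl, hbx, Or.inl ⟨hin, rfl⟩⟩
    · have := Finset.card_insert_le (x + d.vec) (A.erase x)
      omega
    · intro c hcA
      rcases Finset.mem_insert.1 hcA with rfl | h
      · exact hy
      · exact hc'.core c (Finset.mem_of_mem_erase h)
    · intro c hcA
      rcases Finset.mem_insert.1 hcA with rfl | h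
      · exact Set.mem_insert _ _
      · exact hsub c h
  · -- the block leaves the rectangle and is parked
    have hxl := core_iff.1 hin
    have h0 : lev K d x = 0 := by
      by_contra hh
      apply hy
      rw [core_iff]
      intro e
      rw [← sh_one]
      by_cases he : e = d
      · subst he
        rw [lev_sh]
        have := hxl e
        omega
      · have h4 := lev_sh_ne K x d e 1 he (by norm_num)
        have := hxl e
        omega
    have hld : l d + 1 ≤ k := by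
      have := le_sum l d
      omega
    have s1 : sh p d 1 = x := by rw [sh_one, hx]
    have s2 : ∀ i : ℤ, sh p d (1 + i) = sh x d i := by
      intro i; rw [← s1, sh_sh]
    have hlev : ∀ i e, 0 ≤ i → lev K e (sh x d i) ≤ if e = d then i else 0 := by
      intro i e hi
      by_cases he : e = d
      · subst he
        rw [if_pos rfl, lev_sh, h0]; omega
      · rw [if_neg he]
        exact (lev_sh_ne K x d e i he hi).trans (hxl e)
    have hwin : ∀ i : ℤ, 1 ≤ i → i ≤ 2 * k → sh x d i ∈ K.win m n (2 * k + 1) := by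
      intro i h4 h5
      rw [win_iff]
      refine ⟨room hK hin (hS h2) h0 (by omega) (by omega), fun e => ?_⟩
      have := hlev i e (by omega)
      split_ifs at this <;> omega
    have hpos : ∀ i : ℤ, lev K d (sh x d i) = i := by
      intro i; rw [lev_sh, h0]; omega
    have hp := push_back' (S := T) (B := (A : Set (ℤ × ℤ)) ∪ P ∪ O) (c := p) (d := d)
      (2 * (k - l d)) (by omega) (by rw [s1]; exact hT (core_win hK hin))
      (by rw [s1]; exact hxC) (by
        intro i h5 h6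
        rw [s2]
        push_cast [Nat.cast_sub (show l d ≤ k by omega)] at h6
        refine ⟨hT (hwin i h5 (by omega)), ?_⟩
        rintro ((h7 | h7) | h7)
        · have := core_iff.1 (hc'.core _ h7) d
          rw [hpos] at this
          omega
        · obtain ⟨e, j, g1, g2, g3, g4⟩ := hc'.arm _ h7
          by_cases he : d = e
          · subst he
            rw [hpos] at g3
            omega
          · have := g4 d he
            rw [hpos] at this
            omega
        · exact hc'.oth _ h7 (hwin i h5 (by omega)))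
    have s3 : sh p d (((2 * (k - l d) : ℕ) : ℤ) + 1) = sh x d (2 * (k - l d)) := by
      rw [add_comm, s2]
      congr 1
      push_cast [Nat.cast_sub (show l d ≤ k by omega)]
      ring
    rw [s1, s3, union_erase' hxP hxO] at hp
    have hz : ∀ e, e ≠ d → lev K e (sh x d (2 * (k - l d))) ≤ 0 := by
      intro e he
      have := hlev (2 * (k - l d)) e (by omega)
      rw [if_neg he] at this
      exact this
    have hzd : lev K d (sh x d (2 * (k - l d))) = 2 * (k - l d) := hpos _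
    have hdiff : ∀ c ∈ P, ∀ e, 0 < lev K e c → lev K e c = lev K e (sh x d (2 * (k - l d))) →
        False := by
      intro c hcP e g1 g2
      have he : e = d := by
        by_contra hh
        have := hz e hh
        omega
      subst he
      obtain ⟨e', j, g3, g4, g5, g6⟩ := hc'.arm c hcP
      by_cases he' : e = e'
      · subst he'
        omega
      · have := g6 e he'
        omega
    refine ⟨_, Relation.ReflTransGen.trans hG hp, A.erase x,
      insert (sh x d (2 * (k - l d))) P, Function.update l d (l d + 1),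
      ⟨?_, ?_, hsub, ?_, ?_, ?_, hc'.oth⟩, rfl, hbx, Or.inl ⟨hin, rfl⟩⟩
    · rw [sum_update]; omega
    · intro c hcA
      exact hc'.core c (Finset.mem_of_mem_erase hcA)
    · intro c hcP
      rcases hcP with rfl | hcP
      · refine ⟨d, k - l d, ?_, by omega, by rw [hzd], hz⟩
        rw [Function.update_self]
        push_cast
        omega
      · obtain ⟨e, j, g1, g2, g3, g4⟩ := hc'.arm c hcP
        refine ⟨e, j, ?_, g2, g3, g4⟩
        by_cases he : e = d
        · subst he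
          rw [Function.update_self]
          push_cast
          omega
        · rw [Function.update_of_ne he]
          exact g1
    · intro c hcP c' hcP' e g1 g2
      rcases hcP with rfl | hcP
      · rcases hcP' with rfl | hcP'
        · rfl
        · exact absurd (hdiff c' hcP' e (by omega) g2.symm) id
      · rcases hcP' with rfl | hcP'
        · exact absurd (hdiff c hcP e g1 g2) id
        · exact hc'.uni c hcP c' hcP' e g1 g2
    · intro c hcP
      rcases hcP with rfl | hcP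
      · exact (hwin (2 * (k - l d)) (by omega) (by omega)).1
      · exact hc'.brd c hcP

/-- many moves -/
theorem sim2_all (hK : K.OK m n k) {S T : Set (ℤ × ℤ)} (hS : S ⊆ board m n)
    (hT : K.win m n (2 * k + 1) ⊆ T) {s t s' : Position} (hs : Rel2 K m n k O s s')
    (h : Rch S s t) : ∃ t', Rch T s' t' ∧ Rel2 K m n k O t t' := by
  induction h with
  | refl => exact ⟨s', Relation.ReflTransGen.refl, hs⟩
  | tail _ h1 ih =>
    obtain ⟨d, h1⟩ := h1
    obtain ⟨t', h2, h3⟩ := ih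
    obtain ⟨u', h4, h5⟩ := sim2 hK hS hT h3 h1
    exact ⟨u', Relation.ReflTransGen.trans h2 h4, h5⟩

end

end MP82a8ee.Sparse
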